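import Mathlib

open MeasureTheory Set Module Filter Topology
open scoped InnerProductSpace

namespace Pool.Agent.H.MP_d39bc3_gt.Dom

abbrev E3 := EuclideanSpace ℝ (Fin 3)

def Om : Set E3 := {p | 0 < p 0 ∧ 0 < p 1 ∧ 0 < p 2 ∧ 1 < p 0 * p 1 * p 2}
def K : Set E3 := {p | 0 < p 0 ∧ 0 < p 1 ∧ 0 < p 2 ∧ 1 ≤ p 0 * p 1 * p 2}

theorem cont (i : Fin 3) : Continuous fun p : E3 => p i := by fun_prop

theorem isOpen_Om : IsOpen Om := by
  have h : IsOpen {p : E3 | 1 < p 0 * p 1 * p 2} :=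
    isOpen_lt continuous_const (((cont 0).mul (cont 1)).mul (cont 2))
  have h0 : IsOpen {p : E3 | 0 < p 0} := isOpen_lt continuous_const (cont 0)
  have h1 : IsOpen {p : E3 | 0 < p 1} := isOpen_lt continuous_const (cont 1)
  have h2 : IsOpen {p : E3 | 0 < p 2} := isOpen_lt continuous_const (cont 2)
  exact h0.inter (h1.inter (h2.inter h))

theorem isClosed_K : IsClosed K := by
  have : K = {p : E3 | 0 ≤ p 0} ∩ ({p | 0 ≤ p 1} ∩ ({p | 0 ≤ p 2} ∩ {p | 1 ≤ p 0 * p 1 * p 2})) := by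
    ext p
    simp only [K, mem_setOf_eq, mem_inter_iff]
    constructor
    · rintro ⟨h0, h1, h2, h⟩
      exact ⟨h0.le, h1.le, h2.le, h⟩
    · rintro ⟨h0, h1, h2, h⟩
      refine ⟨lt_of_le_of_ne h0 ?_, lt_of_le_of_ne h1 ?_, lt_of_le_of_ne h2 ?_, h⟩
      · intro e; rw [← e] at h; norm_num at h
      · intro e; rw [← e] at h; norm_num at h
      · intro e; rw [← e] at h; norm_num at h
  rw [this]
  refine (isClosed_le continuous_const (cont 0)).inter ((isClosed_le continuous_const (cont 1)).inter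
    ((isClosed_le continuous_const (cont 2)).inter (isClosed_le continuous_const ?_)))
  exact ((cont 0).mul (cont 1)).mul (cont 2)

theorem Om_subset_K : Om ⊆ K := fun _ h => ⟨h.1, h.2.1, h.2.2.1, h.2.2.2.le⟩

theorem closure_Om : closure Om = K := by
  refine Subset.antisymm (closure_minimal Om_subset_K isClosed_K) ?_
  rintro p ⟨h0, h1, h2, h⟩
  have ht : Tendsto (fun t : ℝ => t • p) (𝓝[>] 1) (𝓝 p) := by
    have : Continuous fun t : ℝ => t • p := by fun_prop
    have h' := this.tendsto 1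
    rw [one_smul] at h'
    exact h'.mono_left nhdsWithin_le_nhds
  refine mem_closure_of_tendsto ht ?_
  filter_upwards [self_mem_nhdsWithin] with t ht
  have ht1 : 1 < t := ht
  have ht0 : 0 < t := by linarith
  refine ⟨by simpa using mul_pos ht0 h0, by simpa using mul_pos ht0 h1,
    by simpa using mul_pos ht0 h2, ?_⟩
  simp only [PiLp.smul_apply, smul_eq_mul]
  have h3 : 1 < t ^ 3 := one_lt_pow₀ ht1 (by norm_num)
  have : t * p 0 * (t * p 1) * (t * p 2) = t ^ 3 * (p 0 * p 1 * p 2) := by ring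
  rw [this]
  nlinarith

theorem frontier_Om : frontier Om = {p | 0 < p 0 ∧ 0 < p 1 ∧ 0 < p 2 ∧ p 0 * p 1 * p 2 = 1} := by
  rw [frontier, closure_Om, isOpen_Om.interior_eq]
  ext p
  simp only [K, Om, mem_diff, mem_setOf_eq]
  constructor
  · rintro ⟨⟨h0, h1, h2, h⟩, hn⟩
    refine ⟨h0, h1, h2, le_antisymm ?_ h⟩
    by_contra hc
    exact hn ⟨h0, h1, h2, not_le.1 hc⟩
  · rintro ⟨h0, h1, h2, h⟩
    exact ⟨⟨h0, h1, h2, h.ge⟩, fun hn => by have := hn.2.2.2; linarith⟩

theorem log_le {x y s t : ℝ} (hx : 0 < x) (hy : 0 < y) (hs : 0 < s) (ht : 0 < t) (h : s + t = 1) :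
    s * Real.log x + t * Real.log y ≤ Real.log (s * x + t * y) :=
  strictConcaveOn_log_Ioi.concaveOn.2 hx hy hs.le ht.le h

theorem log_lt {x y s t : ℝ} (hx : 0 < x) (hy : 0 < y) (hne : x ≠ y) (hs : 0 < s) (ht : 0 < t)
    (h : s + t = 1) :
    s * Real.log x + t * Real.log y < Real.log (s * x + t * y) :=
  strictConcaveOn_log_Ioi.2 hx hy hne hs ht h

theorem comb_mem {p q : E3} (hp : p ∈ K) (hq : q ∈ K) (hne : p ≠ q) {s t : ℝ} (hs : 0 < s)
    (ht : 0 < t) (h : s + t = 1) : s • p + t • q ∈ Om := by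
  obtain ⟨p0, p1, p2, hp⟩ := hp
  obtain ⟨q0, q1, q2, hq⟩ := hq
  have e : ∀ i, (s • p + t • q) i = s * p i + t * q i := fun i => by simp
  have r0 : 0 < s * p 0 + t * q 0 := by positivity
  have r1 : 0 < s * p 1 + t * q 1 := by positivity
  have r2 : 0 < s * p 2 + t * q 2 := by positivity
  refine ⟨by rw [e]; exact r0, by rw [e]; exact r1, by rw [e]; exact r2, ?_⟩
  rw [e, e, e]
  have lp : 0 ≤ Real.log (p 0) + Real.log (p 1) + Real.log (p 2) := by
    rw [← Real.log_mul p0.ne' p1.ne', ← Real.log_mul (by positivity) p2.ne']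
    exact Real.log_nonneg hp
  have lq : 0 ≤ Real.log (q 0) + Real.log (q 1) + Real.log (q 2) := by
    rw [← Real.log_mul q0.ne' q1.ne', ← Real.log_mul (by positivity) q2.ne']
    exact Real.log_nonneg hq
  have a0 := log_le p0 q0 hs ht h
  have a1 := log_le p1 q1 hs ht h
  have a2 := log_le p2 q2 hs ht h
  have sp := mul_nonneg hs.le lp
  have sq := mul_nonneg ht.le lq
  have key : 0 < Real.log (s * p 0 + t * q 0) + Real.log (s * p 1 + t * q 1) +
      Real.log (s * p 2 + t * q 2) := by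
    by_cases c0 : p 0 = q 0
    · by_cases c1 : p 1 = q 1
      · have c2 : p 2 ≠ q 2 := by
          intro c2
          apply hne
          ext i
          fin_cases i
          · exact c0
          · exact c1
          · exact c2
        have := log_lt p2 q2 c2 hs ht h
        nlinarith
      · have := log_lt p1 q1 c1 hs ht h
        nlinarith
    · have := log_lt p0 q0 c0 hs ht h
      nlinarith
  rw [← Real.log_mul r0.ne' r1.ne', ← Real.log_mul (by positivity) r2.ne'] at key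
  exact (Real.log_pos_iff (by positivity)).1 key

theorem strictConvex_K : StrictConvex ℝ K := by
  intro p hp q hq hne s t hs ht h
  exact interior_maximal Om_subset_K isOpen_Om (comb_mem hp hq hne hs ht h)

theorem convex_Om : Convex ℝ Om := by
  refine convex_iff_pairwise_pos.2 ?_
  intro p hp q hq hne s t hs ht h
  exact comb_mem (Om_subset_K hp) (Om_subset_K hq) hne hs ht h

theorem inner_eq (a y : E3) : ⟪a, y⟫_ℝ = a 0 * y 0 + a 1 * y 1 + a 2 * y 2 := by
  simp [PiLp.inner_apply, Fin.sum_univ_three, mul_comm]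

theorem unb (a d : E3) (hd0 : 0 ≤ d 0) (hd1 : 0 ≤ d 1) (hd2 : 0 ≤ d 2) (hd : d ≠ 0)
    (had : ⟪a, d⟫_ℝ = 0) :
    ∃ s, ¬ Bornology.IsBounded ({y | ⟪a, y⟫_ℝ = s} ∩ Om) := by
  let x : E3 := !₂[2, 2, 2]
  refine ⟨⟪a, x⟫_ℝ, fun hb => ?_⟩
  obtain ⟨C, hC⟩ := hb.exists_norm_le
  have hdn : 0 < ‖d‖ := norm_pos_iff.2 hd
  have hmem : ∀ t : ℝ, 0 ≤ t → x + t • d ∈ {y | ⟪a, y⟫_ℝ = ⟪a, x⟫_ℝ} ∩ Om := by
    intro t ht
    have e : ∀ i, (x + t • d) i = 2 + t * d i := by
      intro i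
      fin_cases i <;> simp [x]
    have m0 := mul_nonneg ht hd0
    have m1 := mul_nonneg ht hd1
    have m2 := mul_nonneg ht hd2
    refine ⟨by simp [inner_add_right, inner_smul_right, had], by rw [e]; linarith,
      by rw [e]; linarith, by rw [e]; linarith, ?_⟩
    rw [e, e, e]
    have : (2 : ℝ) * 2 * 2 ≤ (2 + t * d 0) * (2 + t * d 1) * (2 + t * d 2) := by
      gcongr <;> linarith
    linarith
  have hC0 : 0 ≤ C := (norm_nonneg _).trans (hC _ (hmem 0 le_rfl))
  have ht : 0 ≤ (C + ‖x‖ + 1) / ‖d‖ := by positivity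
  have h1 := hC _ (hmem _ ht)
  have h2 : ‖((C + ‖x‖ + 1) / ‖d‖) • d‖ = C + ‖x‖ + 1 := by
    rw [norm_smul, Real.norm_of_nonneg ht, div_mul_cancel₀ _ hdn.ne']
  have h3 := norm_sub_le (x + ((C + ‖x‖ + 1) / ‖d‖) • d) x
  rw [add_sub_cancel_left, h2] at h3
  linarith

theorem signs (a : E3) (hb : ∀ s, Bornology.IsBounded ({y | ⟪a, y⟫_ℝ = s} ∩ Om)) :
    0 < a 0 * a 1 ∧ 0 < a 1 * a 2 := by
  have H : ∀ d : E3, 0 ≤ d 0 → 0 ≤ d 1 → 0 ≤ d 2 → ⟪a, d⟫_ℝ = 0 → d = 0 := by
    intro d h0 h1 h2 h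
    by_contra hd
    obtain ⟨s, hs⟩ := unb a d h0 h1 h2 hd h
    exact hs (hb s)
  have n1 : a 1 ≠ 0 := by
    intro h
    have := H !₂[0, 1, 0] (by simp) (by simp) (by simp) (by simp [inner_eq, h])
    have := congrArg (fun v : E3 => v 1) this
    simp at this
  have p1 : 0 < a 1 * a 1 := mul_self_pos.2 n1
  constructor
  · by_contra hc
    have hc := not_lt.1 hc
    have := H !₂[a 1 * a 1, -(a 0 * a 1), 0] (by simpa using p1.le) (by simpa using hc) (by simp)
      (by simp [inner_eq]; ring)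
    have := congrArg (fun v : E3 => v 0) this
    simp [n1] at this
  · by_contra hc
    have hc := not_lt.1 hc
    have := H !₂[0, -(a 1 * a 2), a 1 * a 1] (by simp) (by simpa using hc) (by simpa using p1.le)
      (by simp [inner_eq]; ring)
    have := congrArg (fun v : E3 => v 2) this
    simp [n1] at this

end Pool.Agent.H.MP_d39bc3_gt.Dom
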