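import Mathlib

open MeasureTheory Set Module
open scoped InnerProductSpace

namespace Pool.Agent.H.MP_d39bc3_gt

abbrev E3 := EuclideanSpace ℝ (Fin 3)

theorem finrank_perp (a : E3) (ha : a ≠ 0) : finrank ℝ ((ℝ ∙ a)ᗮ : Submodule ℝ E3) = 2 := by
  have : Fact (finrank ℝ E3 = 2 + 1) := ⟨by simp⟩
  exact Submodule.finrank_orthogonal_span_singleton ha

theorem map_plane (a : E3) (ha : a ≠ 0) (T : E3 ≃L[ℝ] E3) (hTT : ∀ v, T (T v) = v)
    (hTa : ∀ v, ⟪a, T v⟫_ℝ = ⟪a, v⟫_ℝ) (x₀ : E3) (hx : T x₀ = x₀) :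
    Measure.map T ((μH[2] : Measure E3).restrict {y | ⟪a, y⟫_ℝ = ⟪a, x₀⟫_ℝ}) =
      (μH[2] : Measure E3).restrict {y | ⟪a, y⟫_ℝ = ⟪a, x₀⟫_ℝ} := by
  set M : Submodule ℝ E3 := (ℝ ∙ a)ᗮ with hM
  have hmem : ∀ v, v ∈ M ↔ ⟪a, v⟫_ℝ = 0 := fun v =>
    Submodule.mem_orthogonal_singleton_iff_inner_right
  have hfr : finrank ℝ M = 2 := finrank_perp a ha
  let ι : M → E3 := fun m => x₀ + (m : E3)
  have hι : Isometry ι := by
    intro m m'
    simp only [ι, edist_add_left]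
    rfl
  have hr : range ι = {y | ⟪a, y⟫_ℝ = ⟪a, x₀⟫_ℝ} := by
    ext y
    constructor
    · rintro ⟨m, rfl⟩
      have := (hmem _).1 m.2
      simp only [ι, mem_setOf_eq, inner_add_right, this, add_zero]
    · intro hy
      refine ⟨⟨y - x₀, (hmem _).2 ?_⟩, by simp [ι]⟩
      rw [inner_sub_right, show ⟪a, y⟫_ℝ = ⟪a, x₀⟫_ℝ from hy, sub_self]
  have hTM : ∀ v ∈ M, (T : E3 →ₗ[ℝ] E3) v ∈ M := by
    intro v hv
    rw [hmem] at hv ⊢
    simpa [hTa] using hv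
  let TM : M →ₗ[ℝ] M := (T : E3 →ₗ[ℝ] E3).restrict hTM
  have hTM2 : TM ∘ₗ TM = LinearMap.id := by
    ext v
    simp [TM, hTT]
  have hdet : LinearMap.det TM * LinearMap.det TM = 1 := by
    rw [← LinearMap.det_comp, hTM2, LinearMap.det_id]
  have hdet0 : LinearMap.det TM ≠ 0 := by
    intro h; rw [h] at hdet; simp at hdet
  have habs : |(LinearMap.det TM)⁻¹| = 1 := by
    rcases mul_self_eq_one_iff.1 hdet with h | h <;> simp [h]
  have hH : Measure.IsAddHaarMeasure (μH[2] : Measure M) := by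
    have := isAddHaarMeasure_hausdorffMeasure (E := M)
    rw [hfr] at this
    exact_mod_cast this
  have hmapM : Measure.map TM (μH[2] : Measure M) = μH[2] := by
    rw [Measure.map_linearMap_addHaar_eq_smul_addHaar _ hdet0, habs]
    simp
  have hTMc : Measurable TM := TM.continuous_of_finiteDimensional.measurable
  rw [← hr, ← hι.map_hausdorffMeasure (Or.inl (by norm_num)),
    Measure.map_map T.continuous.measurable hι.continuous.measurable]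
  have : (T : E3 → E3) ∘ ι = ι ∘ TM := by
    funext m
    simp [ι, TM, hx]
  rw [this, ← Measure.map_map hι.continuous.measurable hTMc, hmapM]

theorem integral_fixed (a : E3) (ha : a ≠ 0) (T : E3 ≃L[ℝ] E3) (hTT : ∀ v, T (T v) = v)
    (hTa : ∀ v, ⟪a, T v⟫_ℝ = ⟪a, v⟫_ℝ) (x₀ : E3) (hx : T x₀ = x₀) (Ω : Set E3)
    (hΩ : MeasurableSet Ω) (hTΩ : ∀ v, T v ∈ Ω ↔ v ∈ Ω) :
    T (∫ y in {y | ⟪a, y⟫_ℝ = ⟪a, x₀⟫_ℝ} ∩ Ω, y ∂(μH[2] : Measure E3)) =
      ∫ y in {y | ⟪a, y⟫_ℝ = ⟪a, x₀⟫_ℝ} ∩ Ω, y ∂(μH[2] : Measure E3) := by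
  set P : Set E3 := {y | ⟪a, y⟫_ℝ = ⟪a, x₀⟫_ℝ} with hP
  have h1 : MeasurePreserving T ((μH[2] : Measure E3).restrict P) ((μH[2] : Measure E3).restrict P) :=
    ⟨T.continuous.measurable, map_plane a ha T hTT hTa x₀ hx⟩
  have h2 := h1.restrict_preimage hΩ
  have h3 : (T : E3 → E3) ⁻¹' Ω = Ω := by
    ext v; exact hTΩ v
  rw [h3, Measure.restrict_restrict hΩ, inter_comm Ω P] at h2
  rw [← T.integral_comp_comm]
  exact h2.integral_comp T.toHomeomorph.measurableEmbedding (fun y => y)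

end Pool.Agent.H.MP_d39bc3_gt
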